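import Pool.Agent.U638.BS.Stm

/-!
Project BS, package SM3: the number of points at infinity, and the primes 2 and 3.
-/

set_option autoImplicit false

namespace Pool.Agent.U638.BS

/-- the number of points at infinity -/
theorem card_ok : S_CARD := by
  classical
  intro F _ p hp hF
  have hfin : Finite F := Nat.finite_of_card_ne_zero (by rw [hF]; exact pow_ne_zero _ hp.ne_zero)
  have hft : Fintype F := Fintype.ofFinite F
  have h1 : p ^ 3 - 1 = (p - 1) * (p ^ 2 + p + 1) := by
    obtain ⟨m, rfl⟩ : ∃ m, p = m + 1 := ⟨p - 1, by have := hp.pos; omega⟩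
    have h2 : (m + 1) ^ 3 = m * ((m + 1) ^ 2 + (m + 1) + 1) + 1 := by ring
    rw [h2]
    simp
  have hpos : 0 < p ^ 3 - 1 := by
    have h2 : 2 ^ 3 ≤ p ^ 3 := Nat.pow_le_pow_left hp.two_le 3
    omega
  obtain ⟨g, hg⟩ := IsCyclic.exists_generator (α := Fˣ)
  have hog : orderOf g = p ^ 3 - 1 := by
    rw [orderOf_eq_card_of_forall_mem_zpowers hg, Nat.card_units, hF]
  have hg1 : IsPrimitiveRoot (g : F) (p ^ 3 - 1) := by
    rw [← hog]
    exact (IsPrimitiveRoot.orderOf g).map_of_injective (f := Units.coeHom F) Units.val_injective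
  have hg2 : IsPrimitiveRoot ((g : F) ^ (p - 1)) (p ^ 2 + p + 1) := hg1.pow hpos h1
  have h3 := hg2.card_nthRootsFinset
  have h4 : Nat.card (Inf F p) = (Polynomial.nthRootsFinset (p ^ 2 + p + 1) (1 : F)).card := by
    rw [Nat.card_eq_fintype_card]
    exact Fintype.card_of_subtype _ (fun x => Polynomial.mem_nthRootsFinset (by positivity) (1 : F))
  rw [h4]
  exact h3

/-- the prime 2 -/
theorem sm2_ok : S_SM 2 := by
  classical
  intro F _ hF
  have hfin : Finite F := Nat.finite_of_card_ne_zero (by rw [hF]; norm_num)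
  have hft : Fintype F := Fintype.ofFinite F
  have hcard : Fintype.card F = 8 := by rw [← Nat.card_eq_fintype_card, hF]; norm_num
  obtain ⟨b, hb0, hb1⟩ : ∃ b : F, b ≠ 0 ∧ b ≠ 1 := by
    by_contra hcon
    push Not at hcon
    have h1 : (Finset.univ : Finset F) ⊆ {0, 1} := by
      intro x _
      rw [Finset.mem_insert, Finset.mem_singleton]
      by_cases hx : x = 0
      · exact Or.inl hx
      · exact Or.inr (hcon x hx)
    have h2 := Finset.card_le_card h1
    rw [Finset.card_univ, hcard] at h2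
    have h3 : ({0, 1} : Finset F).card ≤ 2 := Finset.card_le_two
    omega
  refine ⟨!![0, 0, 1; 0, 1, 0; b, 0, 0], ?_, ?_⟩
  · rw [Matrix.det_fin_three]
    simp [hb0]
  · intro i j c hc h
    have e0 := congrFun h 0
    have e1 := congrFun h 1
    have e2 := congrFun h 2
    rcases i with x | y
    · rcases j with t | z
      · simp [vec, Matrix.mulVec, dotProduct, Fin.sum_univ_three] at e0 e1 e2
        have hx : x ≠ 0 := by
          intro hx
          rw [hx] at e0
          exact hc (by simpa using e0.symm)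
        have h5 : (b - 1) * x ^ 2 = 0 := by
          rw [e2]
          have : x ^ 2 = (c * t) ^ 2 := by rw [← e1]
          linear_combination (c * t ^ 2) * e0 - this
        rcases mul_eq_zero.1 h5 with h6 | h6
        · exact hb1 (sub_eq_zero.1 h6)
        · exact hx (pow_eq_zero_iff (two_ne_zero) |>.1 h6)
      · simp [vec, Matrix.mulVec, dotProduct, Fin.sum_univ_three] at e0 e1 e2
        exact hc (by rw [← e1, e0])
    · have hy : (y : F) ≠ 0 := by
        intro h0
        have := y.2
        rw [h0] at this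
        simp at this
      rcases j with t | z
      · simp [vec, Matrix.mulVec, dotProduct, Fin.sum_univ_three] at e0 e1 e2
        rcases e2 with e2 | e2
        · exact hc e2
        · rw [e2] at e1
          simp at e1
      · simp [vec, Matrix.mulVec, dotProduct, Fin.sum_univ_three] at e0 e1 e2
        exact hy e0

/-- product of two triples for `th ^ 3 = th + 1` -/
def sm3mul (s t : ZMod 3 × ZMod 3 × ZMod 3) : ZMod 3 × ZMod 3 × ZMod 3 :=
  (s.1 * t.1 + (s.2.1 * t.2.2 + s.2.2 * t.2.1),
    s.1 * t.2.1 + s.2.1 * t.1 + (s.2.1 * t.2.2 + s.2.2 * t.2.1) + s.2.2 * t.2.2,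
    s.1 * t.2.2 + s.2.1 * t.2.1 + s.2.2 * t.1 + s.2.2 * t.2.2)

/-- the value at `s` of `th ^ 2 (x ^ 3 - 1) x ^ 2` -/
def sm3val (s : ZMod 3 × ZMod 3 × ZMod 3) : ZMod 3 × ZMod 3 × ZMod 3 :=
  sm3mul (0, 0, 1) (sm3mul ((sm3mul s (sm3mul s s)).1 - 1, (sm3mul s (sm3mul s s)).2.1,
    (sm3mul s (sm3mul s s)).2.2) (sm3mul s s))

theorem sm3_check : ∀ s : ZMod 3 × ZMod 3 × ZMod 3, sm3val s ≠ (1, 0, 0) := by
  decide

theorem sm3_inv : ∀ s : ZMod 3 × ZMod 3 × ZMod 3, s ≠ 0 → ∃ t, sm3mul s t = (1, 0, 0) := by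
  decide

/-- there is an element `th` with `th ^ 3 = th + 1` -/
theorem sm3_exists (F : Type) [Field F] [Fintype F] (hcard : Fintype.card F = 27)
    (h3 : (3 : F) = 0) : ∃ th : F, th ^ 3 = th + 1 := by
  classical
  by_contra hcon
  push Not at hcon
  have hQ : ∀ x : F, (x ^ 3 - x - 1) ^ 8 + (x ^ 3 - x - 1) ^ 2 + 1 = 0 := by
    intro x
    have hu : x ^ 3 - x - 1 ≠ 0 := by
      intro h
      exact hcon x (by linear_combination h)
    have cube : ∀ a b : F, (a - b) ^ 3 = a ^ 3 - b ^ 3 := fun a b => by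
      linear_combination (-(a ^ 2 * b) + a * b ^ 2) * h3
    have h1 : (x ^ 3 - x - 1) ^ 3 = x ^ 9 - x ^ 3 - 1 := by
      rw [cube, cube]
      ring
    have h2 : (x ^ 3 - x - 1) ^ 9 = x ^ 27 - x ^ 9 - 1 := by
      have e : (x ^ 3 - x - 1) ^ 9 = ((x ^ 3 - x - 1) ^ 3) ^ 3 := by ring
      rw [e, h1, cube, cube]
      ring
    have h4 : x ^ 27 = x := by
      have := FiniteField.pow_card x
      rw [hcard] at this
      exact this
    have h5 : (x ^ 3 - x - 1) * ((x ^ 3 - x - 1) ^ 8 + (x ^ 3 - x - 1) ^ 2 + 1) = 0 := by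
      have e : (x ^ 3 - x - 1) * ((x ^ 3 - x - 1) ^ 8 + (x ^ 3 - x - 1) ^ 2 + 1) =
        (x ^ 3 - x - 1) ^ 9 + (x ^ 3 - x - 1) ^ 3 + (x ^ 3 - x - 1) := by ring
      rw [e, h1, h2, h4]
      linear_combination -h3
    exact (mul_eq_zero.1 h5).resolve_left hu
  let Q : Polynomial F := (Polynomial.X ^ 3 - Polynomial.X - 1) ^ 8 +
    (Polynomial.X ^ 3 - Polynomial.X - 1) ^ 2 + 1
  have hdP : (Polynomial.X ^ 3 - Polynomial.X - 1 : Polynomial F).natDegree = 3 := by
    compute_degree!
  have hmP : (Polynomial.X ^ 3 - Polynomial.X - 1 : Polynomial F).Monic := by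
    monicity!
  have hd8 : ((Polynomial.X ^ 3 - Polynomial.X - 1 : Polynomial F) ^ 8).natDegree = 24 := by
    rw [hmP.natDegree_pow, hdP]
  have hd2 : ((Polynomial.X ^ 3 - Polynomial.X - 1 : Polynomial F) ^ 2 + 1).natDegree < 24 := by
    refine lt_of_le_of_lt (Polynomial.natDegree_add_le _ _) ?_
    rw [hmP.natDegree_pow, hdP]
    simp
  have hdQ : Q.natDegree = 24 := by
    have e : Q = (Polynomial.X ^ 3 - Polynomial.X - 1) ^ 8 +
      ((Polynomial.X ^ 3 - Polynomial.X - 1) ^ 2 + 1) := by
      simp only [Q]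
      ring
    rw [e, Polynomial.natDegree_add_eq_left_of_natDegree_lt (by rw [hd8]; exact hd2), hd8]
  have hz : Q = 0 := by
    apply Polynomial.eq_zero_of_natDegree_lt_card_of_eval_eq_zero' Q (Finset.univ : Finset F)
    · intro x _
      simp only [Q, Polynomial.eval_add, Polynomial.eval_pow, Polynomial.eval_sub,
        Polynomial.eval_X, Polynomial.eval_one]
      exact hQ x
    · rw [Finset.card_univ, hcard, hdQ]
      norm_num
  rw [hz] at hdQ
  simp at hdQ

/-- the prime 3 -/
theorem sm3_ok : S_SM 3 := by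
  classical
  intro F _ hF
  have hfin : Finite F := Nat.finite_of_card_ne_zero (by rw [hF]; norm_num)
  have hft : Fintype F := Fintype.ofFinite F
  have hcard : Fintype.card F = 27 := by rw [← Nat.card_eq_fintype_card, hF]; norm_num
  have h3 : (3 : F) = 0 := by
    have h1 : ((Fintype.card F : ℕ) : F) = 0 := Nat.cast_card_eq_zero F
    rw [hcard] at h1
    have h2 : (3 : F) ^ 3 = 0 := by
      have e : ((27 : ℕ) : F) = (3 : F) ^ 3 := by norm_num
      rw [← e]
      exact h1
    exact pow_eq_zero_iff (by norm_num) |>.1 h2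
  have hchar : CharP F 3 := (CharP.charP_iff_prime_eq_zero Nat.prime_three).2 (by exact_mod_cast h3)
  obtain ⟨th, hth⟩ := sm3_exists F hcard h3
  have hth0 : th ≠ 0 := by
    rintro rfl
    simp at hth
  let φ : ZMod 3 →+* F := ZMod.castHom (dvd_refl 3) F
  let ev : ZMod 3 × ZMod 3 × ZMod 3 → F := fun s => φ s.1 + φ s.2.1 * th + φ s.2.2 * th ^ 2
  have hmul : ∀ s t, ev (sm3mul s t) = ev s * ev t := by
    intro s t
    simp only [ev, sm3mul, map_add, map_mul]
    linear_combination (-(φ s.2.1 * φ t.2.2 + φ s.2.2 * φ t.2.1) - φ s.2.2 * φ t.2.2 * th) * hth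
  have hone : ev (1, 0, 0) = 1 := by simp [ev]
  have hinj : Function.Injective ev := by
    intro s t hst
    by_contra hne
    have hne' : s - t ≠ 0 := sub_ne_zero.2 hne
    obtain ⟨r, hr⟩ := sm3_inv (s - t) hne'
    have h1 := hmul (s - t) r
    rw [hr, hone] at h1
    have h2 : ev (s - t) = ev s - ev t := by
      simp only [ev, Prod.fst_sub, Prod.snd_sub, map_sub]
      ring
    rw [h2, hst, sub_self, zero_mul] at h1
    exact one_ne_zero h1
  have hsurj : Function.Surjective ev := by
    have hb : Function.Bijective ev := by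
      rw [Fintype.bijective_iff_injective_and_card]
      refine ⟨hinj, ?_⟩
      rw [hcard]
      simp [ZMod.card]
    exact hb.2
  have hi : ∀ x : F, th ^ 2 * ((x ^ 3 - 1) * x ^ 2) ≠ 1 := by
    intro x hx
    obtain ⟨s, rfl⟩ := hsurj x
    apply sm3_check s
    apply hinj
    rw [hone, sm3val, hmul, hmul, hmul]
    have e1 : ev ((0, 0, 1) : ZMod 3 × ZMod 3 × ZMod 3) = th ^ 2 := by simp [ev]
    have e2 : ev ((sm3mul s (sm3mul s s)).1 - 1, (sm3mul s (sm3mul s s)).2.1,
        (sm3mul s (sm3mul s s)).2.2) = ev s ^ 3 - 1 := by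
      have e3 : ev ((sm3mul s (sm3mul s s)).1 - 1, (sm3mul s (sm3mul s s)).2.1,
        (sm3mul s (sm3mul s s)).2.2) = ev (sm3mul s (sm3mul s s)) - 1 := by
        simp only [ev, map_sub, map_one]
        ring
      rw [e3, hmul, hmul]
      ring
    rw [e1, e2]
    linear_combination hx
  have hii : (-th ^ 2) ^ 13 ≠ 1 := by
    intro h
    have h27 : th ^ 27 = th := by
      have := FiniteField.pow_card th
      rw [hcard] at this
      exact this
    have h26 : th ^ 26 = 1 := by
      apply mul_right_cancel₀ hth0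
      rw [one_mul, ← pow_succ]
      exact h27
    have h4 : (-th ^ 2) ^ 13 = -th ^ 26 := by ring
    rw [h4, h26] at h
    have h5 : (1 : F) = 0 := by linear_combination h3 + h
    exact one_ne_zero h5
  refine ⟨!![0, 1, 0; 1, 0, 0; -th ^ 2, 0, th ^ 2], ?_, ?_⟩
  · rw [Matrix.det_fin_three]
    simp [hth0]
  · intro i j c hc h
    have e0 := congrFun h 0
    have e1 := congrFun h 1
    have e2 := congrFun h 2
    rcases i with x | y
    · rcases j with t | z
      · simp [vec, Matrix.mulVec, dotProduct, Fin.sum_univ_three] at e0 e1 e2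
        apply hi x
        rw [e0]
        rw [e0] at e2
        have h6 : c ^ 2 * (c * t ^ 3) = 1 := by
          have : (c * t) ^ 3 = 1 := by rw [← e1]; ring
          linear_combination this
        linear_combination c ^ 2 * e2 + h6
      · simp [vec, Matrix.mulVec, dotProduct, Fin.sum_univ_three] at e0 e1 e2
        apply hii
        have h7 := z.2
        have h8 : (z : F) = -th ^ 2 := by
          rw [e0, ← e1] at e2
          linear_combination -e2
        rw [← h8]
        exact h7
    · have hy : (y : F) ≠ 0 := by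
        intro h0
        have := y.2
        rw [h0] at this
        simp at this
      rcases j with t | z
      · simp [vec, Matrix.mulVec, dotProduct, Fin.sum_univ_three] at e0 e1 e2
        rcases e1 with e1 | e1
        · exact hc e1
        · rw [e1] at e2
          simp [hth0, hy] at e2
      · simp [vec, Matrix.mulVec, dotProduct, Fin.sum_univ_three] at e0 e1 e2

end Pool.Agent.U638.BS
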